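import Mathlib
import Pool.Agent.X303.TBDual

/-!
# Crystalline cohomology of smooth projective schemes over a finite field: definitions
-/

namespace Pool.Agent.K3h9.CR

open Pool.Agent.W495.FM

noncomputable section

/-- `f` is bilinear. -/
def IsBilin (K : Type) {A B : Type} [Field K] [AddCommGroup A] [Module K A] [AddCommGroup B]
    [Module K B] (f : A → B → K) : Prop :=
  (∀ x, IsLin K (f x)) ∧ ∀ y, IsLin K fun x => f x y

/-- The multiplicity of the eigenvalue one of the linear map `f`: the dimension of the space of the
vectors that are killed by a power of `f - 1`. -/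
def mult (K : Type) [Field K] {E : Type} [AddCommGroup E] [Module K E] (f : E → E) : ℕ :=
  Module.finrank K (Submodule.span K {e : E | ∃ k : ℕ, (fun x => f x - x)^[k] e = 0})

variable {Ω V : Type} [Field Ω]

/-- Data for the smooth projective scheme `X` of pure dimension `d` over the field with `q = p ^ r`
elements, in addition to the motivic homology `M X a b` and the `ℓ`-adic homology `E X a b`. Let `K` be
the fraction field of the ring of Witt vectors of the field.

* `cup`, `cupE`: the cup products, followed by the degree, of `M X a b = H^(2 d - a)(X, ℚ(d - b))` and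
  `M X (2 d - a) (d - b) = H^a(X, ℚ(b))`, and the ones in `ℓ`-adic cohomology. For `a = 2 b` the first is the
  intersection number of cycles of dimension `b` and of dimension `d - b`.
* `C b` is the crystalline cohomology group `H^(2 (d - b))(X)` with coefficients in `K`, with the
  crystalline Frobenius endomorphism, divided by `p ^ (d - b)`, `Fr` (so `C b = H^(2 (d - b))(X)(d - b)`),
  `cl` the class of the cycles of dimension `b` in it, defined on `M X a b = CH_b(X) ⊗ ℚ` for `a = 2 b`, and
  `pair` the cup product, followed by the degree, of `H^(2 (d - b))(X)` and `H^(2 b)(X)`. -/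
structure CrysData (T : Homology Ω V) (X : V) (d : ℤ) (K : Type) [Field K] where
  cup : ∀ a b : ℤ, T.M X a b → T.M X (2 * d - a) (d - b) → ℚ
  cupE : ∀ a b : ℤ, T.E X a b → T.E X (2 * d - a) (d - b) → Ω
  C : ℤ → Type
  [cgrp : ∀ b, AddCommGroup (C b)]
  [cmod : ∀ b, Module K (C b)]
  Fr : ∀ b, C b → C b
  cl : ∀ a b : ℤ, a = 2 * b → T.M X a b → C b
  pair : ∀ b, C b → C (d - b) → K

attribute [instance] CrysData.cgrp CrysData.cmod

variable {T : Homology Ω V} {X : V} {d : ℤ} {K : Type} [Field K]

/-- Properties of the cup products in motivic and in `ℓ`-adic cohomology: bilinearity, Poincaré duality,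
the invariance under the Frobenius, and the compatibility of the regulator with cup products. -/
structure IsCup (D : CrysData T X d K) : Prop where
  cup : ∀ a b, IsBilin ℚ (D.cup a b)
  cupE : ∀ a b, IsBilin Ω (D.cupE a b)
  left : ∀ a b e, (∀ e', D.cupE a b e e' = 0) → e = 0
  right : ∀ a b e', (∀ e, D.cupE a b e e' = 0) → e' = 0
  frob : ∀ a b e e', D.cupE a b (T.frob X a b e) (T.frob X _ _ e') = D.cupE a b e e'
  reg : ∀ a b x y, D.cupE a b (T.reg X a b x) (T.reg X _ _ y) = (D.cup a b x y : Ω)

/-- Properties of the crystalline cohomology: finiteness of the dimension, semilinearity of the Frobenius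
with respect to the Frobenius automorphism `σ` of `K`; the additivity of the class of cycles, which is
fixed by the Frobenius divided by `p ^ (d - b)`, and the compatibility of cup products and intersection
numbers (Berthelot, Gillet and Messing). -/
structure IsCrys (D : CrysData T X d K) (σ : K ≃+* K) : Prop where
  finite : ∀ b, FiniteDimensional K (D.C b)
  frAdd : ∀ b, IsAdd (D.Fr b)
  frSmul : ∀ b (c : K) x, D.Fr b (c • x) = σ c • D.Fr b x
  clAdd : ∀ a b h, IsAdd (D.cl a b h)
  clFr : ∀ a b h x, D.Fr b (D.cl a b h x) = D.cl a b h x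
  bilin : ∀ b, IsBilin K (D.pair b)
  pairCl : ∀ a b h h' x y,
    D.pair b (D.cl a b h x) (D.cl (2 * d - a) (d - b) h' y) = (D.cup a b x y : K)

/-- The theorem of Katz and Messing: the power `Fr ^ r` is linear, and the multiplicity of its eigenvalue
one on `C b = H^(2 (d - b))(X)(d - b)` (that is, of the eigenvalue `q ^ (d - b)` of the linear Frobenius
endomorphism on `H^(2 (d - b))(X)`) is the multiplicity of the eigenvalue one of the Frobenius on the
`ℓ`-adic group `H_(2 b)(X, ℚ_ℓ(b)) = H^(2 (d - b))(X, ℚ_ℓ(d - b))`. -/
def KatzMessing (D : CrysData T X d K) (r : ℕ) : Prop :=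
  ∀ a b : ℤ, a = 2 * b → IsLin K (D.Fr b)^[r] ∧ mult K (D.Fr b)^[r] = mult Ω (T.frob X a b)

/-- Both forms of the crystalline Tate conjecture for `X`, in all codimensions `d - b`, together with the
semisimplicity of the eigenvalue and the injectivity of the class map. In terms of the Frobenius
endomorphisms `p ^ (-(d - b)) Fr_p = Fr` and `q ^ (-(d - b)) Fr_q = Fr ^ r` of `H^(2 (d - b))(X)(d - b)`:

* the elements `x` with `Fr ^ r x = x` are the linear combinations of classes of cycles with coefficients
  in `K`;
* the elements `x` with `Fr x = x` are the linear combinations of classes of cycles with coefficients in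
  the fixed field of `σ`, the field of `p`-adic numbers;
* linearly independent elements of `CH_b(X) ⊗ ℚ` have classes that are linearly independent over `K`;
* `Fr ^ r` is semisimple at the eigenvalue one. -/
structure CrysTate (D : CrysData T X d K) (r : ℕ) (σ : K ≃+* K) : Prop where
  linear : ∀ a b h (x : D.C b), (D.Fr b)^[r] x = x ↔ x ∈ Submodule.span K (Set.range (D.cl a b h))
  semilinear : ∀ a b h (x : D.C b), D.Fr b x = x ↔ ∃ (n : ℕ) (c : Fin n → K)
    (z : Fin n → T.M X a b), (∀ k, σ (c k) = c k) ∧ x = ∑ k, c k • D.cl a b h (z k)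
  injective : ∀ a b h (n : ℕ) (z : Fin n → T.M X a b), LinearIndependent ℚ z →
    LinearIndependent K fun k => D.cl a b h (z k)
  semisimple : ∀ b (x : D.C b) (k : ℕ), (fun y => (D.Fr b)^[r] y - y)^[k] x = 0 → (D.Fr b)^[r] x = x

end

end Pool.Agent.K3h9.CR
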