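import Pool.Agent.K3h9.CR.Defs
import Pool.Agent.K3h9.SZ.Fin

/-!
# The crystalline Tate conjecture for smooth projective schemes that satisfy the conjecture of Tate and
Beilinson
-/

set_option autoImplicit false

namespace Pool.Agent.K3h9.CR

open Module Pool.Agent.W495.FM Pool.Agent.X303.TBDual

noncomputable section

variable {Ω V : Type} [Field Ω] [CharZero Ω] {T : Homology Ω V} {X : V} {d : ℤ} {K : Type} [Field K]
  [CharZero K] {D : CrysData T X d K} {r : ℕ} {σ : K ≃+* K}

omit [CharZero K] in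
/-- bilinear functions are bilinear maps -/
theorem bilin_map {A B : Type} [AddCommGroup A] [Module K A] [AddCommGroup B] [Module K B]
    {f : A → B → K} (h : IsBilin K f) : ∃ g : A →ₗ[K] B →ₗ[K] K, ∀ x y, g x y = f x y := by
  choose g hg using h.1
  choose l hl' using h.2
  have hl : ∀ y x, f x y = l y x := hl'
  refine ⟨{ toFun := g, map_add' := fun x y => ?_, map_smul' := fun c x => ?_ }, fun x y => (hg x y).symm⟩
  · ext z
    rw [LinearMap.add_apply, ← hg, ← hg, ← hg, hl, hl, hl, map_add]
  · ext z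
    rw [RingHom.id_apply, LinearMap.smul_apply, ← hg, ← hg, hl, hl, map_smul]

theorem perfect (hT : IsHomology T) (h : TB T X) (hD : IsCup D) (a b : ℤ) :
    ∃ g : T.M X a b →ₗ[ℚ] T.M X (2 * d - a) (d - b) →ₗ[ℚ] ℚ,
      (∀ x y, g x y = D.cup a b x y) ∧ g.IsPerfPair := by
  choose g hg using fun a b => bilin_map (hD.cup a b)
  choose l hl using fun a b => bilin_map (hD.cupE a b)
  refine ⟨g a b, hg a b, perfectL (D := ⟨g, l⟩) hT h ⟨?_, ?_, ?_, ?_⟩ a b⟩
  · intro a b e he
    exact hD.left a b e fun e' => by rw [← hl]; exact he e'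
  · intro a b e he
    exact hD.right a b e fun e' => by rw [← hl]; exact he e'
  · intro a b e e'
    change (l a b _) _ = (l a b _) _
    rw [hl, hl]
    exact hD.frob a b e e'
  · intro a b x y
    change (l a b _) _ = ((g a b x y : ℚ) : Ω)
    rw [hl, hg]
    exact hD.reg a b x y

omit [CharZero Ω] in
/-- the rational multiples -/
theorem cl_smul (hD : IsCrys D σ) {a b : ℤ} (h : a = 2 * b) (q : ℚ) (x : T.M X a b) :
    D.cl a b h (q • x) = (q : K) • D.cl a b h x :=
  map_ratCast_smul (AddMonoidHom.mk' (D.cl a b h) (hD.clAdd a b h)) ℚ K q x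

omit [CharZero Ω] [CharZero K] in
theorem cl_sum (hD : IsCrys D σ) {a b : ℤ} (h : a = 2 * b) {ι : Type} (s : Finset ι)
    (f : ι → T.M X a b) : D.cl a b h (∑ k ∈ s, f k) = ∑ k ∈ s, D.cl a b h (f k) :=
  map_sum (AddMonoidHom.mk' (D.cl a b h) (hD.clAdd a b h)) f s

theorem indep (hT : IsHomology T) (h : TB T X) (hD' : IsCup D) (hD : IsCrys D σ) {a b : ℤ}
    (hab : a = 2 * b) {n : ℕ} (z : Fin n → T.M X a b) (hz : LinearIndependent ℚ z) :
    LinearIndependent K fun k => D.cl a b hab (z k) := by
  have hfin := finite_M hT h a b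
  have hfin' := finite_M hT h (2 * d - a) (d - b)
  obtain ⟨g, hg, hper⟩ := perfect hT h hD' a b
  obtain ⟨P, hP⟩ := bilin_map (hD.bilin b)
  have hab' : 2 * d - a = 2 * (d - b) := by omega
  -- dual elements
  have hex : ∀ k : Fin n, ∃ w : T.M X (2 * d - a) (d - b),
      ∀ l, D.cup a b (z l) w = if l = k then 1 else 0 := by
    intro k
    obtain ⟨f, hf⟩ : ∃ f : T.M X a b →ₗ[ℚ] ℚ, ∀ l, f (z l) = if l = k then 1 else 0 := by
      obtain ⟨f, hf⟩ := LinearMap.exists_extend
        ((Finsupp.lapply k).comp (hz.repr : Submodule.span ℚ (Set.range z) →ₗ[ℚ] Fin n →₀ ℚ))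
      refine ⟨f, fun l => ?_⟩
      have h1 : f (z l) = (f.comp (Submodule.subtype _))
          (⟨z l, Submodule.subset_span ⟨l, rfl⟩⟩ : Submodule.span ℚ (Set.range z)) := rfl
      rw [h1, hf, LinearMap.comp_apply]
      have h2 : hz.repr (⟨z l, Submodule.subset_span ⟨l, rfl⟩⟩ : Submodule.span ℚ (Set.range z)) =
          Finsupp.single l 1 := hz.repr_eq_single l _ rfl
      change (Finsupp.lapply k) (hz.repr _) = _
      rw [h2, Finsupp.lapply_apply, Finsupp.single_apply]
    obtain ⟨w, hw⟩ := hper.bijective_right.2 f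
    refine ⟨w, fun l => ?_⟩
    rw [← hf l, ← hw, ← hg]
    rfl
  choose w hw using hex
  rw [Fintype.linearIndependent_iff]
  intro c hc k
  have h1 : P (∑ l, c l • D.cl a b hab (z l)) (D.cl (2 * d - a) (d - b) hab' (w k)) = c k := by
    rw [map_sum, LinearMap.sum_apply]
    have h2 : ∀ l, (P (c l • D.cl a b hab (z l))) (D.cl (2 * d - a) (d - b) hab' (w k)) =
        if l = k then c l else 0 := by
      intro l
      rw [map_smul, LinearMap.smul_apply, hP, hD.pairCl, hw, smul_eq_mul]
      split_ifs <;> simp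
    rw [Finset.sum_congr rfl fun l _ => h2 l]
    simp
  rw [hc, map_zero, LinearMap.zero_apply] at h1
  exact h1.symm

omit [CharZero Ω] in
theorem span_eq (hD : IsCrys D σ) {a b : ℤ} (hab : a = 2 * b)
    {ι : Type} [Fintype ι] (z : Module.Basis ι ℚ (T.M X a b)) :
    Submodule.span K (Set.range (D.cl a b hab)) =
      Submodule.span K (Set.range fun k => D.cl a b hab (z k)) := by
  apply le_antisymm
  · rw [Submodule.span_le]
    rintro _ ⟨x, rfl⟩
    rw [← z.sum_repr x, cl_sum hD]
    refine Submodule.sum_mem _ fun k _ => ?_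
    rw [cl_smul hD]
    exact Submodule.smul_mem _ _ (Submodule.subset_span ⟨k, rfl⟩)
  · apply Submodule.span_mono
    rintro _ ⟨k, rfl⟩
    exact ⟨_, rfl⟩

/-- the multiplicity as the dimension of the generalised eigenspace -/
theorem mult_eq' {F : Type} [Field F] {E : Type} [AddCommGroup E] [Module F E] {f : E → E}
    (φ : E →ₗ[F] E) (hφ : ∀ e, φ e = f e) :
    Submodule.span F {e : E | ∃ k : ℕ, (fun x => f x - x)^[k] e = 0} =
      Module.End.maxGenEigenspace φ 1 ∧
      ∀ (k : ℕ) (e : E), (fun x => f x - x)^[k] e = ((φ - (1 : F) • (1 : Module.End F E)) ^ k) e := by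
  have hit : ∀ (k : ℕ) (e : E), (fun x => f x - x)^[k] e = ((φ - (1 : F) • (1 : Module.End F E)) ^ k) e := by
    intro k e
    induction k with
    | zero => simp
    | succ k ih =>
      rw [Function.iterate_succ_apply', ih, pow_succ', Module.End.mul_apply, LinearMap.sub_apply, hφ]
      simp
  refine ⟨?_, hit⟩
  have hset : {e : E | ∃ k : ℕ, (fun x => f x - x)^[k] e = 0} =
      (Module.End.maxGenEigenspace φ 1 : Set E) := by
    ext e
    simp only [Set.mem_ofPred_eq, SetLike.mem_coe, Module.End.mem_maxGenEigenspace, hit]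
  rw [hset, Submodule.span_eq]

theorem genEigenspace_eq (hT : IsHomology T) (h : TB T X) (hD' : IsCup D) (hD : IsCrys D σ)
    (hK : KatzMessing D r) {a b : ℤ} (hab : a = 2 * b) (F : D.C b →ₗ[K] D.C b)
    (hF : ∀ x, F x = (D.Fr b)^[r] x) :
    Module.End.maxGenEigenspace F 1 = Submodule.span K (Set.range (D.cl a b hab)) ∧
      ∀ x ∈ Submodule.span K (Set.range (D.cl a b hab)), F x = x := by
  have hfin := hD.finite b
  have hM := finite_M hT h a b
  have hcl : ∀ x ∈ Submodule.span K (Set.range (D.cl a b hab)), F x = x := by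
    intro x hx
    induction hx using Submodule.span_induction with
    | mem y hy =>
      obtain ⟨w, rfl⟩ := hy
      rw [hF]
      exact Function.iterate_fixed (hD.clFr a b hab w) r
    | zero => rw [map_zero]
    | add y w _ _ h1 h2 => rw [map_add, h1, h2]
    | smul c y _ h1 => rw [map_smul, h1]
  refine ⟨?_, hcl⟩
  symm
  have hle : Submodule.span K (Set.range (D.cl a b hab)) ≤ Module.End.maxGenEigenspace F 1 := by
    intro x hx
    rw [Module.End.mem_maxGenEigenspace]
    refine ⟨1, ?_⟩
    rw [pow_one, LinearMap.sub_apply, hcl x hx]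
    simp
  apply Submodule.eq_of_le_of_finrank_le hle
  obtain ⟨-, hKM⟩ := hK a b hab
  obtain ⟨φ, hφ⟩ := hT.lin X a b
  unfold mult at hKM
  rw [(mult_eq' F hF).1, (mult_eq' φ fun e => (hφ e).symm).1,
    Pool.Agent.K3h9.SZ.finrank_M hT h a b φ fun e => (hφ e).symm] at hKM
  rw [hKM]
  let z := Module.finBasis ℚ (T.M X a b)
  rw [span_eq hD hab z, finrank_span_eq_card (indep hT h hD' hD hab z z.linearIndependent),
    Fintype.card_fin]

theorem crysTate (hT : IsHomology T) (h : TB T X) (hD' : IsCup D) (hD : IsCrys D σ)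
    (hK : KatzMessing D r) : CrysTate D r σ := by
  have hlin : ∀ a b (hab : a = 2 * b) (x : D.C b), (D.Fr b)^[r] x = x ↔
      x ∈ Submodule.span K (Set.range (D.cl a b hab)) := by
    intro a b hab x
    obtain ⟨F, hF⟩ := (hK a b hab).1
    obtain ⟨h1, h2⟩ := genEigenspace_eq hT h hD' hD hK hab F fun x => (hF x).symm
    constructor
    · intro hx
      rw [← h1, Module.End.mem_maxGenEigenspace]
      refine ⟨1, ?_⟩
      rw [pow_one, LinearMap.sub_apply, ← hF, hx]
      simp
    · intro hx
      rw [hF]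
      exact h2 x hx
  refine ⟨hlin, ?_, fun a b hab n z hz => indep hT h hD' hD hab z hz, ?_⟩
  · intro a b hab x
    have hfin := hD.finite b
    have hM := finite_M hT h a b
    let z := Module.finBasis ℚ (T.M X a b)
    have hind := indep hT h hD' hD hab z z.linearIndependent
    have hadd : ∀ {ι : Type} (s : Finset ι) (f : ι → D.C b),
        D.Fr b (∑ k ∈ s, f k) = ∑ k ∈ s, D.Fr b (f k) := fun s f =>
      map_sum (AddMonoidHom.mk' (D.Fr b) (hD.frAdd b)) f s
    constructor
    · intro hx
      have h1 := (hlin a b hab x).1 (Function.iterate_fixed hx r)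
      rw [span_eq hD hab z] at h1
      obtain ⟨c, hc⟩ := (Submodule.mem_span_range_iff_exists_fun K).1 h1
      refine ⟨_, c, z, ?_, hc.symm⟩
      have h2 : ∑ k, (σ (c k) - c k) • D.cl a b hab (z k) = 0 := by
        have h3 : ∑ k, (σ (c k)) • D.cl a b hab (z k) = ∑ k, (c k) • D.cl a b hab (z k) := by
          rw [hc, ← hx, ← hc, hadd]
          refine Finset.sum_congr rfl fun k _ => ?_
          rw [hD.frSmul, hD.clFr]
        simp only [sub_smul, Finset.sum_sub_distrib]
        rw [sub_eq_zero]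
        exact h3
      intro k
      exact sub_eq_zero.1 (Fintype.linearIndependent_iff.1 hind _ h2 k)
    · rintro ⟨n, c, w, hc, rfl⟩
      rw [hadd]
      refine Finset.sum_congr rfl fun k _ => ?_
      rw [hD.frSmul, hD.clFr, hc]
  · intro b x k hx
    obtain ⟨F, hF⟩ := (hK (2 * b) b rfl).1
    obtain ⟨h1, h2⟩ := genEigenspace_eq hT h hD' hD hK (a := 2 * b) rfl F fun x => (hF x).symm
    rw [hF]
    apply h2
    rw [← h1, Module.End.mem_maxGenEigenspace]
    refine ⟨k, ?_⟩
    rw [← (mult_eq' F fun x => (hF x).symm).2]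
    exact hx

end

end Pool.Agent.K3h9.CR
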